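import Pool.Agent.H.MP_80a07b_an.Main

namespace Pool.Agent.Results.MP_80a07b_an.Finite

theorem result (𝕜 X : Type) [RCLike 𝕜] [NormedAddCommGroup X] [NormedSpace 𝕜 X] [CompleteSpace X]
    (hr : Function.Surjective (NormedSpace.inclusionInDoubleDual 𝕜 X))
    (G : Subgroup (X →L[𝕜] X)ˣ) (hb : ∃ C : ℝ, ∀ g ∈ G, ‖g.val‖ ≤ C)
    (hF : ∀ g ∈ G, ∃ (c : 𝕜) (F : X →L[𝕜] X), ‖c‖ = 1 ∧
      FiniteDimensional 𝕜 (LinearMap.range (F : X →ₗ[𝕜] X)) ∧ ∀ x, g.val x = c • x + F x)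
    (hd : ∀ g ∈ G, ∃ (s : Finset X) (ε : ℝ), 0 < ε ∧
      ∀ h ∈ G, (∀ x ∈ s, ‖h.val x - g.val x‖ < ε) → h = g) :
    (G : Set (X →L[𝕜] X)ˣ).Finite := by
  obtain ⟨C, hC⟩ := hb
  obtain ⟨s, ε, hε, h⟩ := hd 1 G.one_mem
  refine Pool.Agent.H.MP_80a07b_an.main (fun φ => ?_) G C hC (fun g hg => ?_) s ε hε h
  · obtain ⟨x, rfl⟩ := hr φ
    exact ⟨x, fun _ => rfl⟩
  · obtain ⟨c, F, c1, hf, e⟩ := hF g hg
    obtain ⟨t, ht⟩ := (Submodule.fg_iff_finiteDimensional _).2 hf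
    exact ⟨c, c1, t, fun x => by rw [ht, e, add_sub_cancel_left]; exact ⟨x, rfl⟩⟩

end Pool.Agent.Results.MP_80a07b_an.Finite
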